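import Pool.Agent.H77.TL.ToolStm

/-! Crew TL, part AN1D (helper80). -/

set_option autoImplicit false
set_option linter.all false

namespace Pool.Agent.H80.TL

open Finset Pool.MP324

/-- the quadratic form -/
theorem quad_nonneg {a t Q X mu b c z : ℝ} (hmu : 0 < mu) (ha : 0 < a) (hX : X = a * Q - t * t)
    (hb : t * mu = b) (hc : Q * mu ^ 2 = c) (h : 0 < X ∨ (0 < t ∧ 0 < Q)) (hz : 0 ≤ z) :
    0 ≤ a * z ^ 2 + 2 * b * z + c := by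
  subst hX hb hc
  rcases h with h | ⟨h1, h2⟩
  · have e : a * (a * z ^ 2 + 2 * (t * mu) * z + Q * mu ^ 2)
        = (a * z + t * mu) ^ 2 + mu ^ 2 * (a * Q - t * t) := by ring
    have h3 : 0 ≤ a * (a * z ^ 2 + 2 * (t * mu) * z + Q * mu ^ 2) := by
      rw [e]
      positivity
    exact nonneg_of_mul_nonneg_right h3 ha
  · positivity

/-- facts about `m` and `mu = 1/(m+1)` -/
theorem mu_facts {m : ℝ} (hm : 0 < m) : ∃ mu : ℝ, mu = 1 / (m + 1) ∧ 0 < mu ∧ m = 1 / mu - 1 ∧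
    w m = mu * ((33 / 5) * ((mu * mu) * ((1 + 3 * (mu / 2 / 2))⁻¹ * ((1 + 3 * (mu / 2 / 2))⁻¹ * (1 + 3 * (mu / 2 / 2))⁻¹)))) ∧
    w1 m = - 3 * w m * (mu * (1 + 3 * (mu / 2 / 2))⁻¹) ∧
    w2 m = 12 * w m * (mu * (1 + 3 * (mu / 2 / 2))⁻¹) ^ 2 ∧
    eps m = mu * (1 + (1 + 14 * mu)⁻¹ / 2) := by
  refine ⟨1 / (m + 1), rfl, by positivity, by field_simp; ring, ?_, ?_, ?_, ?_⟩
  · rw [w]
    field_simp
    ring
  · rw [w1]
    field_simp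
    ring
  · rw [w2]
    field_simp
    ring
  · rw [eps]
    field_simp
    ring

theorem lp_le {y : ℝ} (hy0 : 0 < y) (hy1 : y < 1) : Pool.MP324.lp y < 1 := by
  rw [Pool.MP324.lp, Real.logb_lt_iff_lt_rpow (by norm_num) (by linarith)]
  norm_num
  linarith

theorem lm_neg {y : ℝ} (hy0 : 0 < y) (hy1 : y < 1) : lm y < 0 := by
  rw [lm]
  exact Real.logb_neg (by norm_num) (by linarith) (by linarith)

theorem AN1D_key {m y : ℝ} (hm : 0 < m) (hy0 : 0 < y) (hy1 : y < 1) :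
    (n1D opsR (1 / (m + 1)) y (Pool.MP324.lp y) (- lm y) cc (Real.log 2) (33 / 5)).1 = fyy m y ∧
    (n1D opsR (1 / (m + 1)) y (Pool.MP324.lp y) (- lm y) cc (Real.log 2) (33 / 5)).2.1 * (1 / (m + 1))
      = fmy m y - eps m / 2 * fy m y ∧
    (n1D opsR (1 / (m + 1)) y (Pool.MP324.lp y) (- lm y) cc (Real.log 2) (33 / 5)).2.2.1 * (1 / (m + 1)) ^ 2
      = fmm m y - (Real.log 2 + eps m) * fm m y ∧
    (n1D opsR (1 / (m + 1)) y (Pool.MP324.lp y) (- lm y) cc (Real.log 2) (33 / 5)).2.2.2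
      = (n1D opsR (1 / (m + 1)) y (Pool.MP324.lp y) (- lm y) cc (Real.log 2) (33 / 5)).1
        * (n1D opsR (1 / (m + 1)) y (Pool.MP324.lp y) (- lm y) cc (Real.log 2) (33 / 5)).2.2.1
        - (n1D opsR (1 / (m + 1)) y (Pool.MP324.lp y) (- lm y) cc (Real.log 2) (33 / 5)).2.1
        * (n1D opsR (1 / (m + 1)) y (Pool.MP324.lp y) (- lm y) cc (Real.log 2) (33 / 5)).2.1 := by
  obtain ⟨mu, hmu, hmu0, hm', hw, hw1, hw2, heps⟩ := mu_facts hm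
  have hl1 := lp_le hy0 hy1
  have hl2 := lm_neg hy0 hy1
  rw [← hmu]
  obtain ⟨lpv, hlpv⟩ : ∃ v, v = Pool.MP324.lp y := ⟨_, rfl⟩
  obtain ⟨lmv, hlmv⟩ : ∃ v, v = lm y := ⟨_, rfl⟩
  rw [← hlpv] at hl1
  rw [← hlmv] at hl2
  have hap : ap m y = mu * (1 - mu * lpv)⁻¹ := by
    rw [ap, ← hlpv, hmu]
    have : m + 1 - lpv ≠ 0 := by linarith
    field_simp
  have ham : am m y = mu * (1 + mu * (- lmv))⁻¹ := by
    rw [am, ← hlmv, hmu]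
    have : m + 1 - lmv ≠ 0 := by linarith
    have e : 1 + 1 / (m + 1) * (-lmv) = (m + 1 - lmv) * (1 / (m + 1)) := by
      field_simp
      ring
    rw [e, mul_inv]
    field_simp
  obtain ⟨dp, hdp⟩ : ∃ v, v = (1 - mu * lpv)⁻¹ := ⟨_, rfl⟩
  obtain ⟨dm, hdm⟩ : ∃ v, v = (1 + mu * (- lmv))⁻¹ := ⟨_, rfl⟩
  obtain ⟨rho, hrho⟩ : ∃ v, v = (1 + 3 * (mu / 2 / 2))⁻¹ := ⟨_, rfl⟩
  obtain ⟨k1, hk1⟩ : ∃ v, v = (1 + 14 * mu)⁻¹ := ⟨_, rfl⟩
  rw [← hdp] at hap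
  rw [← hdm] at ham
  rw [← hrho] at hw hw1 hw2
  rw [← hk1] at heps
  have hmu1 : mu ≠ 0 := hmu0.ne'
  have hJ : J m y = (1 - mu) * ((1 + y) / 2 * (lpv * dp) - (1 - y) / 2 * (-lmv * dm)) := by
    rw [J, hap, ham, ← hlpv, ← hlmv, hm']
    field_simp
    ring
  have hJy : Jy m y = (1 - mu) * ((lpv * dp + cc * (dp * dp)) + (-lmv * dm - cc * (dm * dm))) / 2 := by
    rw [Jy, hap, ham, ← hlpv, ← hlmv, hm']
    field_simp
    ring
  have hJyy : Jyy m y = cc * (1 - mu) * (dp * dp * ((1 + 2 * (cc * mu * dp)) * (1 + y)⁻¹)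
      + dm * dm * ((1 + 2 * (cc * mu * dm)) * (1 - y)⁻¹)) / 2 := by
    rw [Jyy, hap, ham, hm', div_eq_mul_inv _ (1 + y), div_eq_mul_inv _ (1 - y)]
    field_simp
    ring
  have hJm : Jm m y = mu ^ 2 * ((1 + y) / 2 * (lpv * (1 - lpv) * (dp * dp))
      + (1 - y) / 2 * (-(-lmv * (1 + -lmv)) * (dm * dm))) := by
    rw [Jm, hap, ham, gg, gg, ← hlpv, ← hlmv]
    ring
  have hJmm : Jmm m y = -2 * mu ^ 3 * ((1 + y) / 2 * (lpv * (1 - lpv) * (dp * dp) * dp)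
      + (1 - y) / 2 * (-(-lmv * (1 + -lmv)) * (dm * dm) * dm)) := by
    rw [Jmm, hap, ham, gg, gg, ← hlpv, ← hlmv]
    ring
  have hJmy : Jmy m y = mu ^ 2 * ((dp * dp * (lpv * (1 - lpv) + cc * (1 - 2 * lpv)
      + 2 * (cc * mu * (lpv * (1 - lpv) * dp)))
      - dm * dm * (-(-lmv * (1 + -lmv)) + cc * (1 + 2 * -lmv)
      + 2 * (cc * mu * (-(-lmv * (1 + -lmv)) * dm)))) / 2) := by
    rw [Jmy, hap, ham, gg, gg, ← hlpv, ← hlmv]
    ring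
  rw [← hlpv, ← hlmv]
  refine ⟨?_, ?_, ?_, ?_⟩
  · rw [fyy, hJyy, qyy, hw, hdp, hdm, hrho]
    simp only [n1D, opsR]
    push_cast
    ring
  · rw [fmy, fy, hJmy, hJy, hw1, heps, hw, hdp, hdm, hrho, hk1, qy]
    simp only [n1D, opsR]
    push_cast
    ring
  · rw [fmm, fm, hJmm, hJm, hJ, hw2, hw1, heps, hw, hdp, hdm, hrho, hk1, q]
    simp only [n1D, opsR]
    push_cast
    ring
  · simp only [n1D, opsR]

theorem AN1D_proved : S_AN1D := by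
  intro m y hm hy0 hy1 h1 h2 z hz
  obtain ⟨k1, k2, k3, k4⟩ := AN1D_key hm hy0 hy1
  have hmu : 0 < 1 / (m + 1) := by positivity
  rw [k1] at h1
  rw [k1] at k4
  exact quad_nonneg hmu h1 k4 k2 k3 h2 hz

end Pool.Agent.H80.TL
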