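import Pool.Agent.H80.TL.AN1D

/-! Crew TL, part AN1Y (helper80). -/

set_option autoImplicit false
set_option linter.all false

namespace Pool.Agent.H80.TL

open Finset Pool.MP324

theorem AN1Y_key (hSER : S_SER) {m y : ℝ} (hm : 0 < m) (hy0 : 0 < y) (hy1 : y < 1) :
    (n1Y opsR (1 / (m + 1)) (y ^ 2) (alf (y ^ 2)) (bef (y ^ 2)) cc (Real.log 2) (33 / 5)).1 = fyy m y ∧
    (n1Y opsR (1 / (m + 1)) (y ^ 2) (alf (y ^ 2)) (bef (y ^ 2)) cc (Real.log 2) (33 / 5)).2.1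
      * (1 / (m + 1) * y) = fmy m y - eps m / 2 * fy m y ∧
    (n1Y opsR (1 / (m + 1)) (y ^ 2) (alf (y ^ 2)) (bef (y ^ 2)) cc (Real.log 2) (33 / 5)).2.2.1
      * (1 / (m + 1) * y) ^ 2 = fmm m y - (Real.log 2 + eps m) * fm m y ∧
    (n1Y opsR (1 / (m + 1)) (y ^ 2) (alf (y ^ 2)) (bef (y ^ 2)) cc (Real.log 2) (33 / 5)).2.2.2
      = (n1Y opsR (1 / (m + 1)) (y ^ 2) (alf (y ^ 2)) (bef (y ^ 2)) cc (Real.log 2) (33 / 5)).1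
        * (n1Y opsR (1 / (m + 1)) (y ^ 2) (alf (y ^ 2)) (bef (y ^ 2)) cc (Real.log 2) (33 / 5)).2.2.1
        - (n1Y opsR (1 / (m + 1)) (y ^ 2) (alf (y ^ 2)) (bef (y ^ 2)) cc (Real.log 2) (33 / 5)).2.1
        * (n1Y opsR (1 / (m + 1)) (y ^ 2) (alf (y ^ 2)) (bef (y ^ 2)) cc (Real.log 2) (33 / 5)).2.1 := by
  obtain ⟨mu, hmu, hmu0, hm', hw, hw1, hw2, heps⟩ := mu_facts hm
  have hl1 := lp_le hy0 hy1
  have hl2 := lm_neg hy0 hy1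
  obtain ⟨hs1, hs2⟩ := hSER.2.2.2.2.2.2 y hy0.le hy1
  rw [← hmu]
  obtain ⟨al, hal⟩ : ∃ v, v = alf (y ^ 2) := ⟨_, rfl⟩
  obtain ⟨be, hbe⟩ : ∃ v, v = bef (y ^ 2) := ⟨_, rfl⟩
  rw [← hal] at hs1
  rw [← hbe] at hs2
  have hlog : Real.log (1 - y ^ 2) = Real.log (1 + y) + Real.log (1 - y) := by
    rw [← Real.log_mul (by linarith) (by linarith)]
    congr 1
    ring
  rw [hlog] at hs2
  have hlp : Pool.MP324.lp y = y ^ 2 * (-(cc * be / 2)) + y * (cc * al) := by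
    rw [Pool.MP324.lp, Real.logb, div_eq_mul_one_div, ← cc]
    linear_combination (cc / 2) * hs1 - (cc / 2) * hs2
  have hlm : lm y = y ^ 2 * (-(cc * be / 2)) - y * (cc * al) := by
    rw [lm, Real.logb, div_eq_mul_one_div, ← cc]
    linear_combination (-cc / 2) * hs1 - (cc / 2) * hs2
  obtain ⟨lpv, hlpv⟩ : ∃ v, v = Pool.MP324.lp y := ⟨_, rfl⟩
  obtain ⟨lmv, hlmv⟩ : ∃ v, v = lm y := ⟨_, rfl⟩
  rw [← hlpv] at hl1 hlp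
  rw [← hlmv] at hl2 hlm
  have hmu1 : mu ≠ 0 := hmu0.ne'
  have hmule : mu ≤ 1 := by
    rw [hmu, div_le_one (by linarith)]
    linarith
  obtain ⟨P, hP⟩ : ∃ v, v = 1 + mu * (cc * (y ^ 2 * be)) / 2 := ⟨_, rfl⟩
  obtain ⟨R, hR⟩ : ∃ v, v = mu * (cc * al) := ⟨_, rfl⟩
  have e1 : 1 - mu * lpv = P - y * R := by rw [hlp, hP, hR]; ring
  have e2 : 1 - mu * lmv = P + y * R := by rw [hlm, hP, hR]; ring
  have p1 : 0 < P - y * R := by rw [← e1]; nlinarith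
  have p2 : 0 < P + y * R := by rw [← e2]; nlinarith
  obtain ⟨iD, hiD⟩ : ∃ v, v = (P * P - y ^ 2 * (R * R))⁻¹ := ⟨_, rfl⟩
  have hD : P * P - y ^ 2 * (R * R) = (P - y * R) * (P + y * R) := by ring
  have hap : ap m y = mu * (P * iD + y * (R * iD)) := by
    rw [ap, ← hlpv, hiD, hD]
    have e3 : m + 1 - lpv = (P - y * R) / mu := by
      rw [← e1, hm']
      field_simp
      ring
    rw [e3]
    field_simp
  have ham : am m y = mu * (P * iD - y * (R * iD)) := by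
    rw [am, ← hlmv, hiD, hD]
    have e3 : m + 1 - lmv = (P + y * R) / mu := by
      rw [← e2, hm']
      field_simp
      ring
    rw [e3]
    field_simp
  obtain ⟨d0, hd0⟩ : ∃ v, v = P * iD := ⟨_, rfl⟩
  obtain ⟨d1, hd1⟩ : ∃ v, v = R * iD := ⟨_, rfl⟩
  rw [← hd0, ← hd1] at hap ham
  obtain ⟨rho, hrho⟩ : ∃ v, v = (1 + 3 * (mu / 2 / 2))⁻¹ := ⟨_, rfl⟩
  obtain ⟨k1, hk1⟩ : ∃ v, v = (1 + 14 * mu)⁻¹ := ⟨_, rfl⟩
  rw [← hrho] at hw hw1 hw2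
  rw [← hk1] at heps
  obtain ⟨ca, hca⟩ : ∃ v, v = cc * al := ⟨_, rfl⟩
  obtain ⟨l0, hl0⟩ : ∃ v, v = -(cc * be / 2) := ⟨_, rfl⟩
  rw [← hca, ← hl0] at hlp hlm
  obtain ⟨e0, he0⟩ : ∃ v, v = d0 * d0 + y ^ 2 * (d1 * d1) := ⟨_, rfl⟩
  obtain ⟨ee1, hee1⟩ : ∃ v, v = 2 * (d0 * d1) := ⟨_, rfl⟩
  have hap2 : ap m y ^ 2 = mu ^ 2 * (e0 + y * ee1) := by rw [hap, he0, hee1]; ring
  have ham2 : am m y ^ 2 = mu ^ 2 * (e0 - y * ee1) := by rw [ham, he0, hee1]; ring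
  obtain ⟨t0, ht0⟩ : ∃ v, v = e0 * d0 + y ^ 2 * (ee1 * d1) := ⟨_, rfl⟩
  obtain ⟨t1, ht1⟩ : ∃ v, v = e0 * d1 + ee1 * d0 := ⟨_, rfl⟩
  have hap3 : ap m y ^ 3 = mu ^ 3 * (t0 + y * t1) := by
    rw [pow_succ, hap2, hap, ht0, ht1]; ring
  have ham3 : am m y ^ 3 = mu ^ 3 * (t0 - y * t1) := by
    rw [pow_succ, ham2, ham, ht0, ht1]; ring
  obtain ⟨g0, hg0⟩ : ∃ v, v = l0 - y ^ 2 * (l0 * l0) - ca * ca := ⟨_, rfl⟩
  obtain ⟨g1, hg1⟩ : ∃ v, v = ca * (1 + cc * (y ^ 2 * be)) := ⟨_, rfl⟩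
  have hcb : cc * be = -2 * l0 := by rw [hl0]; ring
  have hgp : gg lpv = y ^ 2 * g0 + y * g1 := by
    rw [gg, hlp, hg0, hg1]
    linear_combination (-y ^ 3 * ca) * hcb
  have hgm : gg lmv = y ^ 2 * g0 - y * g1 := by
    rw [gg, hlm, hg0, hg1]
    linear_combination (y ^ 3 * ca) * hcb
  have hJ : J m y = y ^ 2 * ((1 - mu) * ((l0 * d0 + ca * d1) + (y ^ 2 * (l0 * d1) + ca * d0))) := by
    rw [J, hap, ham, ← hlpv, ← hlmv, hlp, hlm, hm']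
    field_simp
    ring
  have hJy : Jy m y = y * ((1 - mu) * ((y ^ 2 * (l0 * d1) + ca * d0) + cc * ee1)) := by
    rw [Jy, hap2, ham2, hap, ham, ← hlpv, ← hlmv, hlp, hlm, hm']
    field_simp
    ring
  have h1y : 1 + y ≠ 0 := by linarith
  have h2y : 1 - y ≠ 0 := by linarith
  have h3y : (1 - y ^ 2)⁻¹ = (1 + y)⁻¹ * (1 - y)⁻¹ := by
    rw [← mul_inv]
    congr 1
    ring
  have hJyy : Jyy m y = cc * (1 - mu) * ((e0 + 2 * (cc * mu) * t0 - y ^ 2 * (ee1 + 2 * (cc * mu) * t1))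
      * (1 - y ^ 2)⁻¹) := by
    have f1 : ap m y ^ 2 * (1 + 2 * cc * ap m y) = ap m y ^ 2 + 2 * cc * ap m y ^ 3 := by ring
    have f2 : am m y ^ 2 * (1 + 2 * cc * am m y) = am m y ^ 2 + 2 * cc * am m y ^ 3 := by ring
    rw [Jyy, f1, f2, hap2, hap3, ham2, ham3, h3y, hm']
    field_simp
    ring
  have hJm : Jm m y = mu ^ 2 * y ^ 2 * ((g0 * e0 + g1 * ee1) + (y ^ 2 * (g0 * ee1) + g1 * e0)) := by
    rw [Jm, hap2, ham2, ← hlpv, ← hlmv, hgp, hgm]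
    ring
  have hJmm : Jmm m y = -2 * mu ^ 3 * y ^ 2 * ((g0 * t0 + g1 * t1) + (y ^ 2 * (g0 * t1) + g1 * t0)) := by
    rw [Jmm, hap3, ham3, ← hlpv, ← hlmv, hgp, hgm]
    ring
  have hJmy : Jmy m y = mu ^ 2 * y * ((y ^ 2 * (g0 * ee1) + g1 * e0)
      + cc * (ee1 - 2 * (y ^ 2 * (l0 * ee1) + ca * e0))
      + 2 * (cc * mu) * (y ^ 2 * (g0 * t1) + g1 * t0)) := by
    have f1 : ap m y ^ 2 * (gg lpv + cc * (1 - 2 * lpv) + 2 * cc * gg lpv * ap m y)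
        = ap m y ^ 2 * (gg lpv + cc * (1 - 2 * lpv)) + 2 * cc * gg lpv * ap m y ^ 3 := by ring
    have f2 : am m y ^ 2 * (gg lmv + cc * (1 - 2 * lmv) + 2 * cc * gg lmv * am m y)
        = am m y ^ 2 * (gg lmv + cc * (1 - 2 * lmv)) + 2 * cc * gg lmv * am m y ^ 3 := by ring
    rw [Jmy, ← hlpv, ← hlmv, f1, f2, hap2, ham2, hap3, ham3, hgp, hgm, hlp, hlm]
    ring
  rw [← hal, ← hbe]
  have hR' : R = mu * ca := by rw [hR, hca]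
  refine ⟨?_, ?_, ?_, ?_⟩
  · rw [fyy, hJyy, qyy, hw]
    simp only [n1Y, opsR]
    push_cast
    simp only [← hP, ← hca, ← hR', ← hiD, ← hd0, ← hd1, ← he0, ← hee1, ← ht0, ← ht1, ← hl0,
      ← hg0, ← hg1, ← hrho, ← hk1]
  · rw [fmy, fy, hJmy, hJy, hw1, heps, hw, qy]
    simp only [n1Y, opsR]
    push_cast
    simp only [← hP, ← hca, ← hR', ← hiD, ← hd0, ← hd1, ← he0, ← hee1, ← ht0, ← ht1, ← hl0,
      ← hg0, ← hg1, ← hrho, ← hk1]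
    ring
  · rw [fmm, fm, hJmm, hJm, hJ, hw2, hw1, heps, hw, q]
    simp only [n1Y, opsR]
    push_cast
    simp only [← hP, ← hca, ← hR', ← hiD, ← hd0, ← hd1, ← he0, ← hee1, ← ht0, ← ht1, ← hl0,
      ← hg0, ← hg1, ← hrho, ← hk1]
    ring
  · simp only [n1Y, opsR]

theorem AN1Y_proved (hSER : S_SER) : S_AN1Y := by
  intro m y hm hy0 hy1 h1 h2 z hz
  obtain ⟨k1, k2, k3, k4⟩ := AN1Y_key hSER hm hy0 hy1
  have hmu : 0 < 1 / (m + 1) * y := by positivity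
  rw [k1] at h1
  rw [k1] at k4
  exact quad_nonneg hmu h1 k4 k2 k3 h2 hz

end Pool.Agent.H80.TL
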