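import Pool.Agent.H77.TL.Stm2
import Pool.Agent.H80.TL.AN1D

/-! Crew TL, part AT5D (helper80). -/

set_option autoImplicit false
set_option linter.all false

namespace Pool.Agent.H80.TL

open Finset Pool.MP324

/-- the components of `t5D` -/
def t5Dc {α : Type} (O : Ops α) (mu y lp L c l2 k : α) : α × α × α × α :=
  let rho := (O.inv (O.add (O.int 1) (O.nmul 3 (O.half (O.half mu)))))
  let w1 := (O.mul k (O.mul (O.mul mu mu) (O.mul rho (O.mul rho rho))))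
  let w := (O.mul mu w1)
  let om := (O.sub (O.int 1) mu)
  let ow := (O.sub (O.int 1) w)
  let dp := (O.inv (O.sub (O.int 1) (O.mul mu lp)))
  let dm := (O.inv (O.add (O.int 1) (O.mul mu L)))
  let dp2 := (O.mul dp dp)
  let dm2 := (O.mul dm dm)
  let gp := (O.mul lp (O.sub (O.int 1) lp))
  let gm := (O.neg (O.mul L (O.add (O.int 1) L)))
  let Jy := (O.half (O.mul om (O.add (O.add (O.mul lp dp) (O.mul c dp2)) (O.sub (O.mul L dm) (O.mul c dm2)))))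
  let cm := (O.mul c mu)
  let ip := (O.inv (O.add (O.int 1) y))
  let im := (O.inv (O.sub (O.int 1) y))
  let Jyy := (O.half (O.mul (O.mul c om) (O.add (O.mul dp2 (O.mul (O.add (O.int 1) (O.nmul 2 (O.mul cm dp))) ip)) (O.mul dm2 (O.mul (O.add (O.int 1) (O.nmul 2 (O.mul cm dm))) im)))))
  let CP := (O.half (O.sub (O.mul dp2 (O.add (O.add gp (O.mul c (O.sub (O.int 1) (O.nmul 2 lp)))) (O.nmul 2 (O.mul cm (O.mul gp dp))))) (O.mul dm2 (O.add (O.add gm (O.mul c (O.add (O.int 1) (O.nmul 2 L)))) (O.nmul 2 (O.mul cm (O.mul gm dm)))))))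
  let yy := (O.mul y y)
  let qy := (O.nmul 4 (O.mul y (O.sub (O.int 1) yy)))
  let qyy := (O.sub (O.int 4) (O.nmul 12 yy))
  let fyy := (O.add (O.mul ow Jyy) (O.mul w qyy))
  let fy := (O.add (O.mul ow Jy) (O.mul w qy))
  let wr3 := (O.nmul 3 (O.mul w1 rho))
  let fmy := (O.sub (O.mul ow CP) (O.mul wr3 (O.sub qy Jy)))
  let ct := (O.mul c (O.sub (O.int 1) (O.nmul 2 mu)))
  let jp := (O.sub (O.mul dp2 (O.sub (O.int 1) (O.nmul 2 (O.mul ct dp)))) (O.nmul 2 (O.mul om (O.mul (O.mul lp (O.mul dp2 dp)) (O.add (O.int 1) (O.nmul 3 (O.mul cm dp)))))))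
  let jm := (O.add (O.mul dm2 (O.sub (O.int 1) (O.nmul 2 (O.mul ct dm)))) (O.nmul 2 (O.mul om (O.mul (O.mul L (O.mul dm2 dm)) (O.add (O.int 1) (O.nmul 3 (O.mul cm dm)))))))
  let JYM := (O.half (O.mul c (O.add (O.mul jp ip) (O.mul jm im))))
  let fyym := (O.sub (O.mul ow JYM) (O.mul wr3 (O.sub qyy Jyy)))
  (fyym, fy, fyy, fmy)

theorem t5D_eq {α : Type} (O : Ops α) (mu y lp L c l2 k : α) :
    t5D O mu y lp L c l2 k
      = O.sub (O.mul (t5Dc O mu y lp L c l2 k).1 (t5Dc O mu y lp L c l2 k).2.1)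
          (O.mul (t5Dc O mu y lp L c l2 k).2.2.1 (t5Dc O mu y lp L c l2 k).2.2.2) := rfl

theorem AT5D_key {m y : ℝ} (hm : 0 < m) (hy0 : 0 < y) (hy1 : y < 1) :
    fyym m y = (1 / (m + 1)) ^ 2
      * (t5Dc opsR (1 / (m + 1)) y (Pool.MP324.lp y) (- lm y) cc (Real.log 2) (33 / 5)).1 ∧
    (t5Dc opsR (1 / (m + 1)) y (Pool.MP324.lp y) (- lm y) cc (Real.log 2) (33 / 5)).2.1 = fy m y ∧
    (t5Dc opsR (1 / (m + 1)) y (Pool.MP324.lp y) (- lm y) cc (Real.log 2) (33 / 5)).2.2.1 = fyy m y ∧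
    fmy m y = (1 / (m + 1)) ^ 2
      * (t5Dc opsR (1 / (m + 1)) y (Pool.MP324.lp y) (- lm y) cc (Real.log 2) (33 / 5)).2.2.2 := by
  obtain ⟨mu, hmu, hmu0, hm', hw, hw1, hw2, heps⟩ := mu_facts hm
  have hl1 := lp_le hy0 hy1
  have hl2 := lm_neg hy0 hy1
  rw [← hmu]
  obtain ⟨lpv, hlpv⟩ : ∃ v, v = Pool.MP324.lp y := ⟨_, rfl⟩
  obtain ⟨lmv, hlmv⟩ : ∃ v, v = lm y := ⟨_, rfl⟩
  rw [← hlpv] at hl1
  rw [← hlmv] at hl2
  have hmule : mu < 1 := by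
    rw [hmu, div_lt_one (by linarith)]
    linarith
  have hdp1 : mu * lpv * (1 - mu * lpv)⁻¹ = (1 - mu * lpv)⁻¹ - 1 := by
    have h1 : 1 - mu * lpv ≠ 0 := by nlinarith
    field_simp
    ring
  have hdm1 : mu * (-lmv) * (1 + mu * (-lmv))⁻¹ = 1 - (1 + mu * (-lmv))⁻¹ := by
    have h1 : 1 + mu * (-lmv) ≠ 0 := by nlinarith
    have h2 : mu * (-lmv) * (1 + mu * (-lmv))⁻¹
        = (1 + mu * (-lmv)) * (1 + mu * (-lmv))⁻¹ - (1 + mu * (-lmv))⁻¹ := by ring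
    rw [h2, mul_inv_cancel₀ h1]
  have hap : ap m y = mu * (1 - mu * lpv)⁻¹ := by
    rw [ap, ← hlpv, hmu]
    have : m + 1 - lpv ≠ 0 := by linarith
    field_simp
  have ham : am m y = mu * (1 + mu * (- lmv))⁻¹ := by
    rw [am, ← hlmv, hmu]
    have : m + 1 - lmv ≠ 0 := by linarith
    have e : 1 + 1 / (m + 1) * (-lmv) = (m + 1 - lmv) * (1 / (m + 1)) := by
      field_simp
      ring
    rw [e, mul_inv]
    field_simp
  obtain ⟨dp, hdp⟩ : ∃ v, v = (1 - mu * lpv)⁻¹ := ⟨_, rfl⟩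
  obtain ⟨dm, hdm⟩ : ∃ v, v = (1 + mu * (- lmv))⁻¹ := ⟨_, rfl⟩
  obtain ⟨rho, hrho⟩ : ∃ v, v = (1 + 3 * (mu / 2 / 2))⁻¹ := ⟨_, rfl⟩
  rw [← hdp] at hap hdp1
  rw [← hdm] at ham hdm1
  rw [← hrho] at hw hw1 hw2
  have hmu1 : mu ≠ 0 := hmu0.ne'
  have hJy : Jy m y = (1 - mu) * ((lpv * dp + cc * (dp * dp)) + (-lmv * dm - cc * (dm * dm))) / 2 := by
    rw [Jy, hap, ham, ← hlpv, ← hlmv, hm']
    field_simp
    ring
  have hJyy : Jyy m y = cc * (1 - mu) * (dp * dp * ((1 + 2 * (cc * mu * dp)) * (1 + y)⁻¹)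
      + dm * dm * ((1 + 2 * (cc * mu * dm)) * (1 - y)⁻¹)) / 2 := by
    rw [Jyy, hap, ham, hm', div_eq_mul_inv _ (1 + y), div_eq_mul_inv _ (1 - y)]
    field_simp
    ring
  have hJmy : Jmy m y = mu ^ 2 * ((dp * dp * (lpv * (1 - lpv) + cc * (1 - 2 * lpv)
      + 2 * (cc * mu * (lpv * (1 - lpv) * dp)))
      - dm * dm * (-(-lmv * (1 + -lmv)) + cc * (1 + 2 * -lmv)
      + 2 * (cc * mu * (-(-lmv * (1 + -lmv)) * dm)))) / 2) := by
    rw [Jmy, hap, ham, gg, gg, ← hlpv, ← hlmv]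
    ring
  have hm2 : 2 * m + 1 = (2 - mu) / mu := by
    rw [hm']
    field_simp
    ring
  have hm3 : 2 * m * (m + 1) = 2 * (1 - mu) / mu ^ 2 := by
    rw [hm']
    field_simp
    ring
  have hjp : (2 * m + 1) * (ap m y ^ 2 * (1 + 2 * cc * ap m y))
      - 2 * m * (m + 1) * (ap m y ^ 3 * (1 + 3 * cc * ap m y))
      = mu ^ 2 * (dp * dp * (1 - 2 * (cc * (1 - 2 * mu) * dp))
        - 2 * ((1 - mu) * (lpv * (dp * dp * dp) * (1 + 3 * (cc * mu * dp))))) := by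
    rw [hm2, hm3, hap]
    have e1 : (2 - mu) / mu * ((mu * dp) ^ 2 * (1 + 2 * cc * (mu * dp)))
        = mu * ((2 - mu) * (dp ^ 2 * (1 + 2 * cc * (mu * dp)))) := by
      field_simp
    have e2 : 2 * (1 - mu) / mu ^ 2 * ((mu * dp) ^ 3 * (1 + 3 * cc * (mu * dp)))
        = mu * (2 * (1 - mu) * (dp ^ 3 * (1 + 3 * cc * (mu * dp)))) := by
      field_simp
    rw [e1, e2]
    linear_combination mu * 2 * (1 - mu) * dp ^ 2 * (1 + 3 * cc * mu * dp) * hdp1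
  have hjm : (2 * m + 1) * (am m y ^ 2 * (1 + 2 * cc * am m y))
      - 2 * m * (m + 1) * (am m y ^ 3 * (1 + 3 * cc * am m y))
      = mu ^ 2 * (dm * dm * (1 - 2 * (cc * (1 - 2 * mu) * dm))
        + 2 * ((1 - mu) * (-lmv * (dm * dm * dm) * (1 + 3 * (cc * mu * dm))))) := by
    rw [hm2, hm3, ham]
    have e1 : (2 - mu) / mu * ((mu * dm) ^ 2 * (1 + 2 * cc * (mu * dm)))
        = mu * ((2 - mu) * (dm ^ 2 * (1 + 2 * cc * (mu * dm)))) := by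
      field_simp
    have e2 : 2 * (1 - mu) / mu ^ 2 * ((mu * dm) ^ 3 * (1 + 3 * cc * (mu * dm)))
        = mu * (2 * (1 - mu) * (dm ^ 3 * (1 + 3 * cc * (mu * dm)))) := by
      field_simp
    rw [e1, e2]
    linear_combination - mu * 2 * (1 - mu) * dm ^ 2 * (1 + 3 * cc * mu * dm) * hdm1
  have hJyym : Jyym m y = mu ^ 2 * (cc * ((dp * dp * (1 - 2 * (cc * (1 - 2 * mu) * dp))
        - 2 * ((1 - mu) * (lpv * (dp * dp * dp) * (1 + 3 * (cc * mu * dp))))) * (1 + y)⁻¹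
        + (dm * dm * (1 - 2 * (cc * (1 - 2 * mu) * dm))
        + 2 * ((1 - mu) * (-lmv * (dm * dm * dm) * (1 + 3 * (cc * mu * dm))))) * (1 - y)⁻¹) / 2) := by
    rw [Jyym, hjp, hjm, div_eq_mul_inv _ (1 + y), div_eq_mul_inv _ (1 - y)]
    ring
  rw [← hlpv, ← hlmv]
  refine ⟨?_, ?_, ?_, ?_⟩
  · rw [fyym, hJyym, hJyy, qyy, hw1, hw, hdp, hdm, hrho]
    simp only [t5Dc, opsR]
    push_cast
    ring
  · rw [fy, hJy, hw, hdp, hdm, hrho, qy]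
    simp only [t5Dc, opsR]
    push_cast
    ring
  · rw [fyy, hJyy, qyy, hw, hdp, hdm, hrho]
    simp only [t5Dc, opsR]
    push_cast
    ring
  · rw [fmy, hJmy, hJy, hw1, hw, hdp, hdm, hrho, qy]
    simp only [t5Dc, opsR]
    push_cast
    ring

theorem AT5D_eq {m y : ℝ} (hm : 0 < m) (hy0 : 0 < y) (hy1 : y < 1) :
    fyym m y * fy m y - fyy m y * fmy m y = (1 / (m + 1)) ^ 2
      * t5D opsR (1 / (m + 1)) y (Pool.MP324.lp y) (- lm y) cc (Real.log 2) (33 / 5) := by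
  obtain ⟨k1, k2, k3, k4⟩ := AT5D_key hm hy0 hy1
  rw [t5D_eq, k1, k4, k2, k3]
  simp only [opsR]
  ring

theorem AT5D_proved : S_AT5D := by
  intro m y hm hy0 hy1 h
  rw [AT5D_eq hm hy0 hy1]
  positivity

end Pool.Agent.H80.TL
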