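import Pool.Agent.H77.TL.Stm2
import Pool.Agent.H80.TL.AT5D

/-! Crew TL, part AT5E (helper80). -/

set_option autoImplicit false
set_option linter.all false

namespace Pool.Agent.H80.TL

open Finset Pool.MP324

/-- the components of `t5E` -/
def t5Ec {α : Type} (O : Ops α) (mu io ze S de dz l c l2 k : α) : α × α × α × α :=
  let rho := (O.inv (O.add (O.int 1) (O.nmul 3 (O.half (O.half mu)))))
  let w1 := (O.mul k (O.mul (O.mul mu mu) (O.mul rho (O.mul rho rho))))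
  let w := (O.mul mu w1)
  let om := (O.sub (O.int 1) mu)
  let ow := (O.sub (O.int 1) w)
  let dp := (O.inv (O.sub (O.int 1) (O.mul mu l)))
  let dp2 := (O.mul dp dp)
  let y := (O.sub (O.int 1) de)
  let ip := (O.inv (O.sub (O.int 2) de))
  let qy := (O.nmul 4 (O.mul y (O.mul de (O.sub (O.int 2) de))))
  let qyy := (O.sub (O.int 4) (O.nmul 12 (O.mul y y)))
  let JS := (O.half (O.mul om (O.add (O.mul (O.sub (O.add (O.mul l dp) (O.mul c dp2)) (O.mul c (O.mul ze ze))) S) (O.int 1))))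
  let fS := (O.add (O.mul ow JS) (O.mul w (O.mul qy S)))
  let cm := (O.mul c mu)
  let gp := (O.mul l (O.sub (O.int 1) l))
  let SS := (O.mul S S)
  let CPS := (O.half (O.add (O.sub (O.add (O.mul (O.mul dp2 (O.add (O.add gp (O.mul c (O.sub (O.int 1) (O.nmul 2 l)))) (O.nmul 2 (O.mul cm (O.mul gp dp))))) SS) (O.add (O.int 1) io)) (O.mul c (O.mul io (O.add (O.int 2) io)))) (O.nmul 2 (O.mul (O.mul cm ze) (O.add (O.int 1) io)))))
  let wr3 := (O.nmul 3 (O.mul w1 rho))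
  let f2 := (O.sub (O.mul ow CPS) (O.mul wr3 (O.sub (O.mul qy SS) (O.mul JS S))))
  let ct := (O.mul c (O.sub (O.int 1) (O.nmul 2 mu)))
  let dzp := (O.mul dz ip)
  let P2 := (O.mul dzp (O.sub (O.mul dp2 (O.sub (O.int 1) (O.nmul 2 (O.mul ct dp)))) (O.nmul 2 (O.mul om (O.mul (O.mul l (O.mul dp2 dp)) (O.add (O.int 1) (O.nmul 3 (O.mul cm dp))))))))
  let NM := (O.add (O.add (O.int 1) (O.nmul 2 (O.mul cm ze))) (O.mul dzp (O.mul dp2 (O.add (O.int 1) (O.nmul 2 (O.mul cm dp))))))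
  let qz := (O.nmul 2 (O.mul l2 (O.mul qyy dz)))
  let g3 := (O.sub (O.mul ow (O.add (O.mul (O.add (O.sub (O.int 1) (O.nmul 2 (O.mul ct ze))) P2) S) (O.nmul 2 (O.mul om (O.add (O.int 1) (O.nmul 3 (O.mul cm ze))))))) (O.mul wr3 (O.mul (O.sub qz (O.mul om NM)) S)))
  let gn := (O.add (O.mul ow (O.mul om NM)) (O.mul w qz))
  (g3, fS, gn, f2)

theorem t5E_eq {α : Type} (O : Ops α) (mu io ze S de dz l c l2 k : α) :
    t5E O mu io ze S de dz l c l2 k
      = O.sub (O.mul (t5Ec O mu io ze S de dz l c l2 k).1 (t5Ec O mu io ze S de dz l c l2 k).2.1)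
          (O.mul (t5Ec O mu io ze S de dz l c l2 k).2.2.1 (t5Ec O mu io ze S de dz l c l2 k).2.2.2) := rfl

theorem AT5E_key {mu y L l c l2 io ze S dz : ℝ} (hL : 0 < L) (hmu : 0 < mu) (hy1 : y < 1)
    (hc : l2 * c = 1) (hio : io = 1 / L) (hze : ze = 1 / (1 + mu * L)) (hS : S = io + mu)
    (hdz : dz = (1 - y) / ze ^ 2) :
    (t5Ec opsR mu io ze S (1 - y) dz l c l2 (33 / 5)).1
      = S * (2 * l2) * dz * (t5Dc opsR mu y l L c l2 (33 / 5)).1 ∧
    (t5Ec opsR mu io ze S (1 - y) dz l c l2 (33 / 5)).2.1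
      = S * (t5Dc opsR mu y l L c l2 (33 / 5)).2.1 ∧
    (t5Ec opsR mu io ze S (1 - y) dz l c l2 (33 / 5)).2.2.1
      = (2 * l2) * dz * (t5Dc opsR mu y l L c l2 (33 / 5)).2.2.1 ∧
    (t5Ec opsR mu io ze S (1 - y) dz l c l2 (33 / 5)).2.2.2
      = S ^ 2 * (t5Dc opsR mu y l L c l2 (33 / 5)).2.2.2 := by
  have hK : 0 < 1 + mu * L := by positivity
  have hze0 : ze ≠ 0 := by
    rw [hze]
    positivity
  have hy2 : (1 - y) * (1 - y)⁻¹ = 1 := mul_inv_cancel₀ (by linarith)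
  have h1 : L * io = 1 := by
    rw [hio]
    field_simp
  have h2 : S * ze = io := by
    rw [hS, hio, hze]
    field_simp
  have h3 : L * ze * S = 1 := by
    linear_combination L * h2 + h1
  have h4 : dz * ze ^ 2 = 1 - y := by
    rw [hdz]
    field_simp
  have h5 : dz * ze ^ 2 * (1 - y)⁻¹ = 1 := by rw [h4, hy2]
  have hdm : (1 + mu * L)⁻¹ = ze := by
    rw [hze, one_div]
  have hip : (2 - (1 - y))⁻¹ = (1 + y)⁻¹ := by
    congr 1
    ring
  obtain ⟨im, him⟩ : ∃ v, v = (1 - y)⁻¹ := ⟨_, rfl⟩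
  obtain ⟨ip, hip'⟩ : ∃ v, v = (1 + y)⁻¹ := ⟨_, rfl⟩
  obtain ⟨dp, hdp⟩ : ∃ v, v = (1 - mu * l)⁻¹ := ⟨_, rfl⟩
  obtain ⟨rho, hrho⟩ : ∃ v, v = (1 + 3 * (mu / 2 / 2))⁻¹ := ⟨_, rfl⟩
  rw [← him] at h5
  refine ⟨?_, ?_, ?_, ?_⟩
  · simp only [t5Ec, t5Dc, opsR]
    push_cast
    rw [hdm, hip, ← him, ← hip', ← hdp, ← hrho]
    clear hio hze hS hdz hdm hip him hip' hdp hrho
    linear_combination
      (1 - mu * (33 / 5 * (mu * mu * (rho * (rho * rho))))) * (S * (1 - 2 * ((c * (1 - 2 * mu)) * ze)) * (-1) + 2 * (1 - mu) * (1 + 3 * (c * mu * ze)) * (-(L * ze * S))) * h5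
      + (1 - mu * (33 / 5 * (mu * mu * (rho * (rho * rho))))) * (-(S * (dz * ip * (dp * dp * (1 - 2 * ((c * (1 - 2 * mu)) * dp)) - 2 * ((1 - mu) * (l * (dp * dp * dp) * (1 + 3 * (c * mu * dp))))))) + S * (1 - 2 * ((c * (1 - 2 * mu)) * ze)) * (-(dz * ze ^ 2 * im))
          + 2 * (1 - mu) * (1 + 3 * (c * mu * ze)) * (-((L * ze * S) * (dz * ze ^ 2 * im)))) * hc
      + (1 - mu * (33 / 5 * (mu * mu * (rho * (rho * rho))))) * (2 * (1 - mu) * (1 + 3 * (c * mu * ze)) * (-1)) * h3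
      + (3 * (33 / 5 * (mu * mu * (rho * (rho * rho))) * rho)) * S * (1 - mu) * (-(1 + 2 * (c * mu * ze))) * h5
      + (3 * (33 / 5 * (mu * mu * (rho * (rho * rho))) * rho)) * S * (1 - mu) * (-((1 + 2 * (c * mu * ze)) * (dz * ze ^ 2 * im))
          - dz * ip * dp ^ 2 * (1 + 2 * (c * mu * dp))) * hc
  · simp only [t5Ec, t5Dc, opsR]
    push_cast
    rw [hdm, ← hdp, ← hrho]
    clear hio hze hS hdz hdm hip him hip' hdp hrho
    linear_combination (-(1 - mu * (33 / 5 * (mu * mu * (rho * (rho * rho))))) * (1 - mu) / 2) * h3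
  · simp only [t5Ec, t5Dc, opsR]
    push_cast
    rw [hdm, hip, ← him, ← hip', ← hdp, ← hrho]
    clear hio hze hS hdz hdm hip him hip' hdp hrho
    linear_combination
      (1 - mu * (33 / 5 * (mu * mu * (rho * (rho * rho))))) * (1 - mu) * (-(1 + 2 * (c * mu * ze))) * h5
      + (1 - mu * (33 / 5 * (mu * mu * (rho * (rho * rho))))) * (1 - mu) * (-((1 + 2 * (c * mu * ze)) * (dz * ze ^ 2 * im))
          - dz * ip * dp ^ 2 * (1 + 2 * (c * mu * dp))) * hc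
  · simp only [t5Ec, t5Dc, opsR]
    push_cast
    rw [hdm, ← hdp, ← hrho]
    clear hio hze hS hdz hdm hip him hip' hdp hrho
    linear_combination
      (1 - mu * (33 / 5 * (mu * mu * (rho * (rho * rho))))) / 2 * ((1 + 2 * (c * mu * ze)) * (-(1 + (L * ze * S) + S * ze)) + c * (2 * (S * ze))) * h3
      + (1 - mu * (33 / 5 * (mu * mu * (rho * (rho * rho))))) / 2 * (-(1 + 2 * (c * mu * ze)) + c * (S * ze + io + 2)) * h2
      - (3 * (33 / 5 * (mu * mu * (rho * (rho * rho))) * rho)) * S * (-(1 - mu) / 2) * (-1) * h3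

theorem AT5E_proved : S_AT5E := by
  intro m y hm hy0 hy1 h
  have hmu : 0 < 1 / (m + 1) := by positivity
  have hL : 0 < - lm y := by
    have := lm_neg hy0 hy1
    linarith
  have hl2 : 0 < Real.log 2 := Real.log_pos (by norm_num)
  have hc : Real.log 2 * cc = 1 := by
    rw [cc]
    field_simp
  obtain ⟨k1, k2, k3, k4⟩ := AT5E_key (l := Pool.MP324.lp y) hL hmu hy1 hc rfl rfl rfl rfl
  rw [t5E_eq, k1, k2, k3, k4] at h
  rw [AT5D_eq hm hy0 hy1, t5D_eq]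
  simp only [opsR] at h ⊢
  have hS : 0 < 1 / (- lm y) + 1 / (m + 1) := by positivity
  have hdz : 0 < (1 - y) / (1 / (1 + 1 / (m + 1) * (- lm y))) ^ 2 := by
    have : 0 < 1 - y := by linarith
    positivity
  generalize 1 / (- lm y) + 1 / (m + 1) = S at h hS
  generalize (1 - y) / (1 / (1 + 1 / (m + 1) * (- lm y))) ^ 2 = dz at h hdz
  have h6 : 0 < S ^ 2 * (2 * Real.log 2) * dz := by positivity
  apply mul_nonneg (by positivity)
  apply le_of_lt
  refine pos_of_mul_pos_right ?_ h6.le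
  refine lt_of_lt_of_eq h ?_
  ring

end Pool.Agent.H80.TL
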