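import Pool.Agent.H77.TL.Stm

/-! Crew TL, part IND (helper80): induction on the dimension. -/

set_option autoImplicit false
set_option linter.all false

namespace Pool.Agent.H80.TL

open Finset Pool.MP324

noncomputable section

variable {n : ℕ}

/-- numerator of the bias -/
def num (B : Finset (Fin n → Bool)) (j : Fin n) : ℝ :=
  ((B.filter (fun z => z j = true)).card : ℝ) - ((B.filter (fun z => z j = false)).card : ℝ)

theorem bias_eq (B : Finset (Fin n → Bool)) (j : Fin n) : bias B j = num B j / B.card := rfl

theorem card_split (B : Finset (Fin n → Bool)) (j : Fin n) :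
    (B.card : ℝ) = ((B.filter (fun z => z j = true)).card : ℝ)
      + ((B.filter (fun z => z j = false)).card : ℝ) := by
  have h := Finset.card_filter_add_card_filter_not (s := B) (fun z => z j = true)
  have h2 : B.filter (fun z => ¬ (z j = true)) = B.filter (fun z => z j = false) := by
    apply Finset.filter_congr
    intro z _
    simp
  rw [h2] at h
  rw [← h]
  push_cast
  ring

theorem half_cube (j : Fin n) (t : Bool) :
    2 * (((univ : Finset (Fin n → Bool)).filter (fun z => z j = t)).card : ℝ) = 2 ^ n := by
  have h1 := card_split (univ : Finset (Fin n → Bool)) j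
  have h2 : (((univ : Finset (Fin n → Bool)).filter (fun z => z j = true)).card)
      = (((univ : Finset (Fin n → Bool)).filter (fun z => z j = false)).card) := by
    apply Finset.card_nbij' (fun z => Function.update z j (!(z j)))
      (fun z => Function.update z j (!(z j)))
    · intro z hz
      simp at hz ⊢
      simp [hz]
    · intro z hz
      simp at hz ⊢
      simp [hz]
    · intro z hz
      simp
    · intro z hz
      simp
  have h3 : ((univ : Finset (Fin n → Bool)).card : ℝ) = 2 ^ n := by
    simp
  rw [h3] at h1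
  cases t
  · rw [h2] at h1
    linarith
  · rw [← h2] at h1
    linarith

theorem le_half (B : Finset (Fin n → Bool)) (j : Fin n) (t : Bool) :
    2 * ((B.filter (fun z => z j = t)).card : ℝ) ≤ 2 ^ n := by
  rw [← half_cube j t]
  have : (B.filter (fun z => z j = t)).card
      ≤ ((univ : Finset (Fin n → Bool)).filter (fun z => z j = t)).card :=
    Finset.card_le_card (Finset.filter_subset_filter _ (Finset.subset_univ _))
  have h : ((B.filter (fun z => z j = t)).card : ℝ)
      ≤ (((univ : Finset (Fin n → Bool)).filter (fun z => z j = t)).card : ℝ) := by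
    exact_mod_cast this
  linarith

theorem card_le (B : Finset (Fin n → Bool)) : (B.card : ℝ) ≤ 2 ^ n := by
  have := Finset.card_le_univ B
  have h : (Fintype.card (Fin n → Bool)) = 2 ^ n := by simp
  rw [h] at this
  exact_mod_cast this

theorem two_pow_mm {B : Finset (Fin n → Bool)} (hB : B.Nonempty) :
    (2 : ℝ) ^ (mm B) = 2 ^ n / B.card := by
  have h0 : (0 : ℝ) < B.card := by exact_mod_cast hB.card_pos
  rw [mm, ← Real.logb_inv, Real.rpow_logb (by norm_num) (by norm_num) (by positivity), inv_div]

theorem mm_nonneg {B : Finset (Fin n → Bool)} (hB : B.Nonempty) : 0 ≤ mm B := by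
  have h0 : (0 : ℝ) < B.card := by exact_mod_cast hB.card_pos
  rw [mm, neg_nonneg]
  apply Real.logb_nonpos (by norm_num) (by positivity)
  rw [div_le_one (by positivity)]
  exact card_le B

theorem abs_bias_le_one (B : Finset (Fin n → Bool)) (j : Fin n) : |bias B j| ≤ 1 := by
  have hc : (0 : ℝ) ≤ (B.card : ℝ) := Nat.cast_nonneg _
  rw [bias_eq, abs_div, abs_of_nonneg hc]
  apply div_le_one_of_le₀ _ hc
  rw [card_split B j, num]
  have h1 : (0 : ℝ) ≤ ((B.filter (fun z => z j = true)).card : ℝ) := Nat.cast_nonneg _
  have h2 : (0 : ℝ) ≤ ((B.filter (fun z => z j = false)).card : ℝ) := Nat.cast_nonneg _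
  rw [abs_le]
  constructor <;> linarith

theorem abs_bias_le {B : Finset (Fin n → Bool)} (hB : B.Nonempty) (j : Fin n) :
    |bias B j| ≤ (2 : ℝ) ^ (mm B) - 1 := by
  have h0 : (0 : ℝ) < B.card := by exact_mod_cast hB.card_pos
  rw [two_pow_mm hB, bias_eq, abs_div, abs_of_pos h0, le_sub_iff_add_le, div_add_one h0.ne',
    div_le_div_iff_of_pos_right h0, num]
  have h1 := le_half B j true
  have h2 := le_half B j false
  have h3 := card_split B j
  rcases abs_cases (((B.filter (fun z => z j = true)).card : ℝ)
    - ((B.filter (fun z => z j = false)).card : ℝ)) with ⟨h, -⟩ | ⟨h, -⟩ <;> rw [h] <;> linarith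

/-- the section of `B` at `z i = s` -/
def sec (B : Finset (Fin (n + 1) → Bool)) (i : Fin (n + 1)) (s : Bool) :
    Finset (Fin n → Bool) :=
  (B.filter (fun z => z i = s)).image (fun z => i.removeNth z)

theorem inj_rem (B : Finset (Fin (n + 1) → Bool)) (i : Fin (n + 1)) (s : Bool) :
    Set.InjOn (fun z : Fin (n + 1) → Bool => (i.removeNth z : Fin n → Bool))
      (B.filter (fun z => z i = s) : Finset (Fin (n + 1) → Bool)) := by
  intro z hz z' hz' h
  have h1 : z i = s := (Finset.mem_filter.mp (Finset.mem_coe.mp hz)).2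
  have h2 : z' i = s := (Finset.mem_filter.mp (Finset.mem_coe.mp hz')).2
  have h3 : (i.removeNth z : Fin n → Bool) = i.removeNth z' := h
  rw [← Fin.insertNth_self_removeNth i z, ← Fin.insertNth_self_removeNth i z', h1, h2, h3]

theorem card_sec (B : Finset (Fin (n + 1) → Bool)) (i : Fin (n + 1)) (s : Bool) :
    (sec B i s).card = (B.filter (fun z => z i = s)).card :=
  Finset.card_image_of_injOn (inj_rem B i s)

theorem card_sec_filter (B : Finset (Fin (n + 1) → Bool)) (i : Fin (n + 1)) (s : Bool)
    (j : Fin n) (t : Bool) :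
    ((sec B i s).filter (fun z => z j = t)).card
      = ((B.filter (fun z => z (i.succAbove j) = t)).filter (fun z => z i = s)).card := by
  rw [sec, Finset.filter_image, Finset.card_image_of_injOn
    ((inj_rem B i s).mono (by
      rw [Finset.coe_filter]
      intro z hz
      exact hz.1)), Finset.filter_comm]
  rfl

theorem num_sec (B : Finset (Fin (n + 1) → Bool)) (i : Fin (n + 1)) (j : Fin n) (s : Bool) :
    num B (i.succAbove j) = num (sec B i s) j + num (sec B i (!s)) j := by
  have h : num B (i.succAbove j) = num (sec B i true) j + num (sec B i false) j := by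
    simp only [num, card_sec_filter]
    rw [card_split (B.filter (fun z => z (i.succAbove j) = true)) i,
      card_split (B.filter (fun z => z (i.succAbove j) = false)) i]
    ring
  cases s
  · rw [h, add_comm]; rfl
  · exact h

theorem card_sec_add (B : Finset (Fin (n + 1) → Bool)) (i : Fin (n + 1)) (s : Bool) :
    (B.card : ℝ) = (sec B i s).card + (sec B i (!s)).card := by
  rw [card_sec, card_sec]
  cases s
  · rw [card_split B i, add_comm]; rfl
  · exact card_split B i

theorem num_eq (B : Finset (Fin (n + 1) → Bool)) (i : Fin (n + 1)) :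
    ∃ s : Bool, |num B i| = ((sec B i s).card : ℝ) - (sec B i (!s)).card := by
  rw [num]
  rcases abs_cases (((B.filter (fun z => z i = true)).card : ℝ)
    - ((B.filter (fun z => z i = false)).card : ℝ)) with ⟨h, -⟩ | ⟨h, -⟩
  · refine ⟨true, ?_⟩
    rw [h, card_sec, card_sec]; rfl
  · refine ⟨false, ?_⟩
    rw [h, card_sec, card_sec]
    simp

theorem f_zero (m : ℝ) : f m 0 = 0 := by
  simp [f, J, q, MP324.lp, lm]

theorem alg1 {a b : ℝ} (h : a ≠ 0) : b = a * (b / a) := by field_simp

theorem alg2 {x C u v : ℝ} (h : C ≠ 0) :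
    ((1 + x) / 2 * C * u + (1 - x) / 2 * C * v) / C = (1 + x) / 2 * u + (1 - x) / 2 * v := by
  field_simp

theorem alg3 {x a b C : ℝ} (hC : C ≠ 0) (hab : C = a + b) (h : x = (a - b) / C) :
    x * (a + b) = a - b := by
  rw [h, ← hab]
  field_simp

theorem alg4 {m F l1 l2 e0 e1 e2 : ℝ} (h : e2 - e0 ≠ 0) :
    m - (F + ((e2 - e1) / (e2 - e0) * (m - l1) + (e1 - e0) / (e2 - e0) * (m - l2)))
      = ((l1 - F) * (e2 - e1) - (F - l2) * (e1 - e0)) / (e2 - e0) := by
  field_simp
  ring

theorem alg5 {y c d : ℝ} : y / 2 * c / d = y * (c / (d * 2)) := by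
  rw [div_mul_eq_mul_div, div_div, ← mul_div_assoc, mul_comm d 2]

theorem f_one {m : ℝ} (hm : m ≠ 0) : f m 1 = 1 := by
  have h1 : MP324.lp 1 = 1 := by
    rw [MP324.lp]
    norm_num
  have h2 : lm 1 = 0 := by
    rw [lm]
    norm_num
  have h3 : J m 1 = 1 := by
    have h4 : m * (1 / m) = 1 := by field_simp
    rw [J, h1, h2, ap, h1]
    have e : m * ((1 + 1) / 2 * 1 * (1 / (m + 1 - 1)) + (1 - 1) / 2 * 0 * am m 1)
        = m * (1 / m) := by
      rw [add_sub_cancel_right]
      ring
    rw [e, h4]
  rw [f, h3, q]
  ring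

theorem cont_E : ContinuousOn (fun s : ℝ => E (Real.logb 2 s)) (Set.Ici 1) := by
  have h1 : ContinuousOn (fun s : ℝ => Real.logb 2 s) (Set.Ici 1) := by
    unfold Real.logb
    apply ContinuousOn.div_const
    apply Real.continuousOn_log.mono
    intro s hs
    have : (1 : ℝ) ≤ s := hs
    simp only [Set.mem_compl_iff, Set.mem_singleton_iff]
    linarith
  have h2 : Continuous E := by
    unfold E
    fun_prop
  exact h2.comp_continuousOn h1

theorem E_pos {s : ℝ} (hs : 1 ≤ s) : 0 < E (Real.logb 2 s) := by
  have h1 : 0 ≤ Real.logb 2 s := Real.logb_nonneg (by norm_num) hs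
  rw [E]
  have h2 : 0 < Real.sqrt (Real.logb 2 s + 15) := Real.sqrt_pos.mpr (by linarith)
  positivity

theorem int_E {a b : ℝ} (ha : 1 ≤ a) (hab : a ≤ b) :
    IntervalIntegrable (fun s : ℝ => E (Real.logb 2 s)) MeasureTheory.volume a b := by
  apply ContinuousOn.intervalIntegrable
  apply cont_E.mono
  rw [Set.uIcc_of_le hab]
  intro s hs
  exact ha.trans hs.1

theorem EE_lt {a b : ℝ} (ha : 1 ≤ a) (hab : a < b) : EE a < EE b := by
  have h1 : EE b - EE a = ∫ s in a..b, E (Real.logb 2 s) := by
    unfold EE
    rw [intervalIntegral.integral_interval_sub_left (int_E le_rfl (ha.trans hab.le))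
      (int_E le_rfl ha)]
  have h2 : 0 < ∫ s in a..b, E (Real.logb 2 s) := by
    apply intervalIntegral.intervalIntegral_pos_of_pos_on (int_E ha hab.le) _ hab
    intro s hs
    exact E_pos (ha.trans hs.1.le)
  linarith

theorem IND_proved (hBASE : S_BASE) (hDEC : S_DEC) (hTPL : S_TPL) (hR2 : S_R2) : S_T := by
  intro n
  induction n with
  | zero =>
    intro B hB
    simp only [Finset.univ_eq_empty, Finset.sum_empty]
    exact mm_nonneg hB
  | succ n ih =>
    intro B hB
    by_cases hm0 : mm B ≤ m0
    · exact hBASE (n + 1) B hB hm0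
    rw [not_le] at hm0
    have hm0pos : 0 < m0 := by
      rw [m0]
      exact Real.logb_pos (by norm_num) (by norm_num)
    have hmpos : 0 < mm B := hm0pos.trans hm0
    have hC : (0 : ℝ) < B.card := by exact_mod_cast hB.card_pos
    obtain ⟨i, -, hi⟩ := Finset.exists_max_image (univ : Finset (Fin (n + 1)))
      (fun i => |bias B i|) ⟨0, Finset.mem_univ _⟩
    obtain ⟨x, hx⟩ : ∃ x, x = |bias B i| := ⟨_, rfl⟩
    have hx0 : 0 ≤ x := by rw [hx]; exact abs_nonneg _
    have hx1 : x ≤ 1 := by rw [hx]; exact abs_bias_le_one B i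
    have hx2 : x ≤ (2 : ℝ) ^ (mm B) - 1 := by rw [hx]; exact abs_bias_le hB i
    have hle : ∀ j, |bias B j| ≤ x := fun j => by
      rw [hx]
      exact hi j (Finset.mem_univ _)
    rcases hx0.eq_or_lt with h0 | h0
    · -- all biases vanish
      have : ∀ j ∈ (univ : Finset (Fin (n + 1))), f (mm B) |bias B j| = 0 := by
        intro j _
        have h1 : |bias B j| = 0 := le_antisymm ((hle j).trans h0.symm.le) (abs_nonneg _)
        rw [h1, f_zero]
      rw [Finset.sum_eq_zero this]
      exact hmpos.le
    -- the two sections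
    obtain ⟨s, hs⟩ := num_eq B i
    obtain ⟨a, ha⟩ : ∃ a : ℝ, a = ((sec B i s).card : ℝ) := ⟨_, rfl⟩
    obtain ⟨b, hb⟩ : ∃ b : ℝ, b = ((sec B i (!s)).card : ℝ) := ⟨_, rfl⟩
    have hab : (B.card : ℝ) = a + b := by
      rw [ha, hb]
      exact card_sec_add B i s
    have hxab : x * (a + b) = a - b := by
      apply alg3 hC.ne' hab
      rw [hx, bias_eq, abs_div, abs_of_pos hC, hs, ← ha, ← hb]
    have ha2 : a = (1 + x) / 2 * (B.card : ℝ) := by rw [hab]; linarith
    have hb2 : b = (1 - x) / 2 * (B.card : ℝ) := by rw [hab]; linarith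
    have hapos : 0 < a := by
      rw [ha2]
      exact mul_pos (by linarith) hC
    have hCn : (0 : ℝ) < (B.card : ℝ) / 2 ^ (n + 1) := div_pos hC (pow_pos two_pos _)
    have hane : (sec B i s).Nonempty := by
      rw [← Finset.card_pos]
      rw [ha] at hapos
      exact_mod_cast hapos
    have hmmP : mm (sec B i s) = mp (mm B) x := by
      rw [mm, ← ha, ha2, mp, mm, MP324.lp]
      have e : (1 + x) / 2 * (B.card : ℝ) / 2 ^ n = (1 + x) * ((B.card : ℝ) / 2 ^ (n + 1)) := by
        rw [pow_succ]
        exact alg5
      rw [e, Real.logb_mul (by linarith) hCn.ne']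
      ring
    rw [Fin.sum_univ_succAbove _ i, ← hx]
    rcases hx1.eq_or_lt with h1 | h1
    · -- `B` lies in a half cube
      subst h1
      have hb0 : b = 0 := by rw [hb2]; ring
      have hcardb : (sec B i (!s)).card = 0 := by
        rw [hb0] at hb
        exact_mod_cast hb.symm
      have hempty : sec B i (!s) = ∅ := Finset.card_eq_zero.mp hcardb
      have hab' : (B.card : ℝ) = a := by rw [hab, hb0, add_zero]
      have hbias : ∀ j, bias B (i.succAbove j) = bias (sec B i s) j := by
        intro j
        rw [bias_eq, bias_eq, num_sec B i j s, hempty, hab', ha]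
        simp [num]
      have hP : mm (sec B i s) = mm B - 1 := by
        rw [hmmP, mp, MP324.lp]
        norm_num
      have hm1 : 1 ≤ mm B := by
        have := mm_nonneg hane
        linarith
      rw [f_one hmpos.ne']
      have hsum : ∑ j, f (mm B) |bias B (i.succAbove j)| ≤ mm B - 1 := by
        calc ∑ j, f (mm B) |bias B (i.succAbove j)|
            ≤ ∑ j, f (mm (sec B i s)) |bias (sec B i s) j| := by
              apply Finset.sum_le_sum
              intro j _
              rw [hbias j, hP]
              apply hDEC _ _ hm1 (abs_nonneg _) (abs_bias_le_one _ _)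
              rw [← hP]
              exact abs_bias_le hane j
          _ ≤ mm (sec B i s) := ih _ hane
          _ = mm B - 1 := hP
      linarith
    · -- the general case
      have hbpos : 0 < b := by
        rw [hb2]
        exact mul_pos (by linarith) hC
      have hbne : (sec B i (!s)).Nonempty := by
        rw [← Finset.card_pos]
        rw [hb] at hbpos
        exact_mod_cast hbpos
      have hmmM : mm (sec B i (!s)) = mn (mm B) x := by
        rw [mm, ← hb, hb2, mn, mm, lm]
        have e : (1 - x) / 2 * (B.card : ℝ) / 2 ^ n = (1 - x) * ((B.card : ℝ) / 2 ^ (n + 1)) := by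
          rw [pow_succ]
          exact alg5
        rw [e, Real.logb_mul (by linarith) hCn.ne']
        ring
      have hbias : ∀ j, bias B (i.succAbove j)
          = (1 + x) / 2 * bias (sec B i s) j + (1 - x) / 2 * bias (sec B i (!s)) j := by
        intro j
        have e1 : num (sec B i s) j = a * bias (sec B i s) j := by
          rw [bias_eq, ← ha]
          exact alg1 hapos.ne'
        have e2 : num (sec B i (!s)) j = b * bias (sec B i (!s)) j := by
          rw [bias_eq, ← hb]
          exact alg1 hbpos.ne'
        rw [bias_eq B, num_sec B i j s, e1, e2, ha2, hb2]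
        exact alg2 hC.ne'
      have hT : ∀ j, f (mm B) |bias B (i.succAbove j)|
          ≤ wp (mm B) x * f (mp (mm B) x) |bias (sec B i s) j|
            + wn (mm B) x * f (mn (mm B) x) |bias (sec B i (!s)) j| := by
        intro j
        have h5 := hle (i.succAbove j)
        rw [hbias j] at h5 ⊢
        apply hTPL (mm B) x _ _ hmpos h0 h1 hx2 (abs_bias_le_one _ _) _ (abs_bias_le_one _ _) _ h5
        · rw [← hmmP]
          exact abs_bias_le hane j
        · rw [← hmmM]
          exact abs_bias_le hbne j
      have hpow : 1 + x ≤ (2 : ℝ) ^ (mm B) := by linarith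
      have hpowpos : (0 : ℝ) < (2 : ℝ) ^ (mm B) := by positivity
      have htp1 : 1 ≤ tp (mm B) x := by
        rw [tp, le_div_iff₀ (by linarith)]
        linarith
      have htpt : tp (mm B) x < tt (mm B) := by
        rw [tp, tt, div_lt_iff₀ (by linarith)]
        nlinarith
      have httm : tt (mm B) < tm (mm B) x := by
        rw [tm, tt, lt_div_iff₀ (by linarith)]
        nlinarith
      have hE1 := EE_lt htp1 htpt
      have hE2 := EE_lt (htp1.trans htpt.le) httm
      have hD : 0 < EE (tm (mm B) x) - EE (tp (mm B) x) := by linarith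
      have hwp : 0 ≤ wp (mm B) x := by
        rw [wp]
        apply div_nonneg <;> linarith
      have hwn : 0 ≤ wn (mm B) x := by
        rw [wn]
        apply div_nonneg <;> linarith
      have hR := hR2 (mm B) x hm0.le h0 h1 hx2
      have hsum : ∑ j, f (mm B) |bias B (i.succAbove j)|
          ≤ wp (mm B) x * mp (mm B) x + wn (mm B) x * mn (mm B) x := by
        calc ∑ j, f (mm B) |bias B (i.succAbove j)|
            ≤ ∑ j, (wp (mm B) x * f (mp (mm B) x) |bias (sec B i s) j|
              + wn (mm B) x * f (mn (mm B) x) |bias (sec B i (!s)) j|) :=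
              Finset.sum_le_sum (fun j _ => hT j)
          _ = wp (mm B) x * ∑ j, f (mp (mm B) x) |bias (sec B i s) j|
              + wn (mm B) x * ∑ j, f (mn (mm B) x) |bias (sec B i (!s)) j| := by
              rw [Finset.sum_add_distrib, Finset.mul_sum, Finset.mul_sum]
          _ ≤ wp (mm B) x * mp (mm B) x + wn (mm B) x * mn (mm B) x := by
              have i1 := ih _ hane
              have i2 := ih _ hbne
              rw [hmmP] at i1
              rw [hmmM] at i2
              have j1 := mul_le_mul_of_nonneg_left i1 hwp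
              have j2 := mul_le_mul_of_nonneg_left i2 hwn
              linarith
      have hfinal : f (mm B) x + (wp (mm B) x * mp (mm B) x + wn (mm B) x * mn (mm B) x)
          ≤ mm B := by
        have e : mm B - (f (mm B) x + (wp (mm B) x * mp (mm B) x + wn (mm B) x * mn (mm B) x))
            = ((MP324.lp x - f (mm B) x) * (EE (tm (mm B) x) - EE (tt (mm B)))
              - (f (mm B) x - lm x) * (EE (tt (mm B)) - EE (tp (mm B) x)))
              / (EE (tm (mm B) x) - EE (tp (mm B) x)) := by
          rw [wp, wn, mp, mn]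
          exact alg4 hD.ne'
        have h9 : 0 ≤ ((MP324.lp x - f (mm B) x) * (EE (tm (mm B) x) - EE (tt (mm B)))
              - (f (mm B) x - lm x) * (EE (tt (mm B)) - EE (tp (mm B) x)))
              / (EE (tm (mm B) x) - EE (tp (mm B) x)) := by
          apply div_nonneg _ hD.le
          linarith
        rw [← e] at h9
        linarith
      linarith

end

end Pool.Agent.H80.TL
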